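import Pool.Agent.Helper332.FA6

set_option autoImplicit false

namespace Pool.Agent.Results.MP_5ffd28_gt.QuotientCriterion

open Topology

/-- Let `X` be a Tychonoff space having a Tychonoff quotient space `Z` (for instance `Z = X`) such that
`Z` has infinitely many clopen sets, or contains a nondegenerate continuum, or is infinite and
metrizable, or is infinite and locally connected, or has a non-isolated point with a neighbourhood that
is metrizable or locally connected. Then there is an infinite `S ⊆ [0,1]` and an open continuous
surjective homomorphism from `A(X)` onto `A(S)`. -/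
theorem result (X : Type) [TopologicalSpace X] [T35Space X]
    (Z : Type) [TopologicalSpace Z] [T35Space Z] (q : X → Z) (hq : IsQuotientMap q)
    (hZ : {U : Set Z | IsClopen U}.Infinite ∨
      (∃ K : Set Z, IsCompact K ∧ IsPreconnected K ∧ K.Nontrivial) ∨
      (Infinite Z ∧ TopologicalSpace.MetrizableSpace Z) ∨
      (Infinite Z ∧ LocallyConnectedSpace Z) ∨
      ∃ z : Z, ¬ IsOpen ({z} : Set Z) ∧
        ∃ N ∈ 𝓝 z, TopologicalSpace.MetrizableSpace N ∨ LocallyConnectedSpace N) :
    ∃ S : Set ℝ, S ⊆ Set.Icc (0 : ℝ) 1 ∧ S.Infinite ∧
      ∃ f : FreeAbelianGroup X →+ FreeAbelianGroup S,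
        Function.Surjective f ∧
        @Continuous (FreeAbelianGroup X) (FreeAbelianGroup S)
          (sInf {t : TopologicalSpace (FreeAbelianGroup X) |
            @IsTopologicalAddGroup (FreeAbelianGroup X) t _ ∧
            @Continuous X (FreeAbelianGroup X) _ t FreeAbelianGroup.of})
          (sInf {t : TopologicalSpace (FreeAbelianGroup S) |
            @IsTopologicalAddGroup (FreeAbelianGroup S) t _ ∧
            @Continuous S (FreeAbelianGroup S) _ t FreeAbelianGroup.of})
          f ∧
        @IsOpenMap (FreeAbelianGroup X) (FreeAbelianGroup S)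
          (sInf {t : TopologicalSpace (FreeAbelianGroup X) |
            @IsTopologicalAddGroup (FreeAbelianGroup X) t _ ∧
            @Continuous X (FreeAbelianGroup X) _ t FreeAbelianGroup.of})
          (sInf {t : TopologicalSpace (FreeAbelianGroup S) |
            @IsTopologicalAddGroup (FreeAbelianGroup S) t _ ∧
            @Continuous S (FreeAbelianGroup S) _ t FreeAbelianGroup.of})
          f := by
  obtain ⟨S, hS, hSi, g, hg⟩ := (Pool.Agent.Helper332.FA.good_all hZ).comp hq
  exact ⟨S, hS, hSi, FreeAbelianGroup.map g, Pool.Agent.Helper332.FA.quotient_open g hg⟩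

end Pool.Agent.Results.MP_5ffd28_gt.QuotientCriterion
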